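/-
MP_c7bb65_an, Q1: every expanding Thurston map (the map itself, not merely an iterate) has a cellular Markov partition.

The definitions (Thurston maps, expansion, cell decompositions, refinement, cellular maps) are in `Pool/Agent/ETM/FnDefs.lean`.
-/
import Mathlib
import Pool.Agent.ETM.FnZ

set_option autoImplicit false

namespace Pool.Agent.Results.MP_c7bb65_an.CellularMarkovPartition

open Pool.CellMarkov

/-- Every expanding Thurston map of a metric 2-sphere has a cellular Markov partition. -/
theorem result (X : Type*) [MetricSpace X]
    (hX : Nonempty (X ≃ₜ Metric.sphere (0 : EuclideanSpace ℝ (Fin 3)) 1)) (f : X → X)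
    (hf : IsThurston f) (he : IsExpanding f) : HasCellularMarkovPartition f :=
  Pool.ETM.etm_main X hX f hf he

end Pool.Agent.Results.MP_c7bb65_an.CellularMarkovPartition
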